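import Mathlib

/-!
# Chromatic number of the degree-(k+t) vertices of a k-tree

For every `t`, the supremum `g t` of the chromatic numbers of the subgraphs induced on the
vertices of degree exactly `k + t`, over all `k ≥ 1` and all `k`-trees of order at least
`k + t + 2`, equals `t + 1`.
-/

namespace Pool.Agent.Results.MP_26d357_co.KTreeDegreeColouring

open Finset

/-- `KTreeOn G k s`: the subgraph of `G` induced on the finite vertex set `s` is a `k`-tree, that
is, it is obtained from a complete graph on `k + 1` vertices by repeatedly adding one new vertex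
`v`, joined to exactly the members of a `k`-clique `K` of the existing vertices. -/
inductive KTreeOn {V : Type} [DecidableEq V] (G : SimpleGraph V) (k : ℕ) : Finset V → Prop
  | base (s : Finset V) (h : G.IsNClique (k + 1) s) : KTreeOn G k s
  | step (s K : Finset V) (v : V) (hs : KTreeOn G k s) (hv : v ∉ s) (hKs : K ⊆ s)
      (hK : G.IsNClique k K) (hN : ∀ w ∈ s, G.Adj v w ↔ w ∈ K) : KTreeOn G k (insert v s)

/-- A graph on the vertices `0, …, n-1` is a `k`-tree. -/
def IsKTree {n : ℕ} (k : ℕ) (G : SimpleGraph (Fin n)) : Prop := KTreeOn G k Finset.univ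

open Classical in
/-- `V_i(G)`, the set of vertices of degree exactly `i`. -/
def degSet {n : ℕ} (G : SimpleGraph (Fin n)) (i : ℕ) : Set (Fin n) := {v | G.degree v = i}

/-- `g t`: the supremum of `χ(V_{k+t}(G))` over all `k ≥ 1` and all `k`-trees `G` of order
`n ≥ k + t + 2`. -/
noncomputable def g (t : ℕ) : ℕ∞ :=
  sSup {c : ℕ∞ | ∃ (k n : ℕ) (G : SimpleGraph (Fin n)), 1 ≤ k ∧ k + t + 2 ≤ n ∧ IsKTree k G ∧
    c = (G.induce (degSet G (k + t))).chromaticNumber}

section general

variable {V : Type} [DecidableEq V] {G : SimpleGraph V} {k : ℕ}

open Classical in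
/-- degree inside `s` -/
noncomputable def d (G : SimpleGraph V) (s : Finset V) (v : V) : ℕ := (s.filter (G.Adj v)).card

open Classical in
/-- universal vertices of `s` -/
noncomputable def U (G : SimpleGraph V) (s : Finset V) : Finset V :=
  s.filter (fun u => ∀ w ∈ s, w ≠ u → G.Adj u w)

lemma mem_U {s : Finset V} {u : V} : u ∈ U G s ↔ u ∈ s ∧ ∀ w ∈ s, w ≠ u → G.Adj u w := by
  classical
  simp [U]

lemma card_ge {s : Finset V} (h : KTreeOn G k s) : k + 1 ≤ s.card := by
  induction h with
  | base s h => exact h.card_eq.ge
  | step s K v hs hv hKs hK hN ih => rw [card_insert_of_notMem hv]; omega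

lemma clique_le {s : Finset V} (h : KTreeOn G k s) :
    ∀ Q ⊆ s, G.IsClique (Q : Set V) → Q.card ≤ k + 1 := by
  classical
  induction h with
  | base s h => intro Q hQ _; exact (card_le_card hQ).trans h.card_eq.le
  | step s K v hs hv hKs hK hN ih =>
    intro Q hQ hc
    by_cases hvQ : v ∈ Q
    · have h1 : Q.erase v ⊆ K := by
        intro w hw
        rw [mem_erase] at hw
        have hws : w ∈ s := by
          have := hQ hw.2
          rw [mem_insert] at this
          exact this.resolve_left hw.1
        exact (hN w hws).1 (hc (by exact_mod_cast hvQ) (by exact_mod_cast hw.2) hw.1.symm)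
      have h2 := card_le_card h1
      rw [card_erase_of_mem hvQ, hK.card_eq] at h2
      omega
    · apply ih Q _ hc
      intro w hw
      have := hQ hw
      rw [mem_insert] at this
      rcases this with rfl | h
      · exact absurd hw hvQ
      · exact h

lemma isClique_union_U {s Q : Finset V} (hQ : Q ⊆ s) (hc : G.IsClique (Q : Set V)) :
    G.IsClique ((Q ∪ U G s : Finset V) : Set V) := by
  classical
  intro a ha b hb hab
  simp only [coe_union, Set.mem_union, mem_coe] at ha hb
  rcases ha with ha | ha
  · rcases hb with hb | hb
    · exact hc (by exact_mod_cast ha) (by exact_mod_cast hb) hab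
    · exact ((mem_U.1 hb).2 a (hQ ha) hab).symm
  · have hbs : b ∈ s := by
      rcases hb with hb | hb
      · exact hQ hb
      · exact (mem_U.1 hb).1
    exact (mem_U.1 ha).2 b hbs hab.symm

lemma U_subset {s : Finset V} : U G s ⊆ s := fun _ h => (mem_U.1 h).1

lemma U_card {s : Finset V} (h : KTreeOn G k s) :
    2 * (k + 1) ≤ (U G s).card + s.card := by
  classical
  induction h with
  | base s h =>
    have : U G s = s := by
      ext u
      rw [mem_U]
      refine ⟨fun h => h.1, fun hu => ⟨hu, fun w hw hne => ?_⟩⟩
      exact h.isClique (by exact_mod_cast hu) (by exact_mod_cast hw) hne.symm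
    rw [this, h.card_eq]; omega
  | step s K v hs hv hKs hK hN ih =>
    have h1 : U G s ∩ K ⊆ U G (insert v s) := by
      intro u hu
      rw [mem_inter] at hu
      rw [mem_U]
      refine ⟨mem_insert_of_mem (hKs hu.2), fun w hw hne => ?_⟩
      rw [mem_insert] at hw
      rcases hw with rfl | hw
      · exact ((hN u (hKs hu.2)).2 hu.2).symm
      · exact (mem_U.1 hu.1).2 w hw hne
    have h2 := card_le_card h1
    have h3 : (K ∪ U G s).card ≤ k + 1 :=
      clique_le hs _ (union_subset hKs U_subset) (isClique_union_U hKs hK.isClique)
    have h4 : (K ∪ U G s).card + (K ∩ U G s).card = K.card + (U G s).card :=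
      card_union_add_card_inter K (U G s)
    rw [inter_comm, hK.card_eq] at h4
    rw [card_insert_of_notMem hv]
    omega

lemma d_ge {s : Finset V} (h : KTreeOn G k s) : ∀ q ∈ s, k ≤ d G s q := by
  classical
  induction h with
  | base s h =>
    intro q hq
    have : s.erase q ⊆ s.filter (G.Adj q) := by
      intro w hw
      rw [mem_erase] at hw
      rw [mem_filter]
      exact ⟨hw.2, h.isClique (by exact_mod_cast hq) (by exact_mod_cast hw.2) hw.1.symm⟩
    have h2 := card_le_card this
    rw [card_erase_of_mem hq, h.card_eq] at h2
    simpa [d] using h2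
  | step s K v hs hv hKs hK hN ih =>
    intro q hq
    rw [mem_insert] at hq
    rcases hq with rfl | hq
    · have : K ⊆ (insert q s).filter (G.Adj q) := by
        intro w hw
        rw [mem_filter]
        exact ⟨mem_insert_of_mem (hKs hw), (hN w (hKs hw)).2 hw⟩
      have h2 := card_le_card this
      rw [hK.card_eq] at h2
      simpa [d] using h2
    · refine (ih q hq).trans ?_
      unfold d
      apply card_le_card
      exact filter_subset_filter _ (subset_insert _ _)

lemma d_mono {s : Finset V} (v q : V) : d G s q ≤ d G (insert v s) q := by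
  classical
  unfold d
  apply card_le_card
  exact filter_subset_filter _ (subset_insert _ _)

lemma d_succ {s : Finset V} {v q : V} (hv : v ∉ s) (h : G.Adj q v) :
    d G (insert v s) q = d G s q + 1 := by
  classical
  unfold d
  rw [filter_insert, if_pos h, card_insert_of_notMem]
  simp [hv]

lemma low_clique {s : Finset V} (h : KTreeOn G k s) :
    ∀ j, k + 1 + j ≤ s.card → ∀ Q ⊆ s, G.IsClique (Q : Set V) →
      (∀ q ∈ Q, d G s q + 1 ≤ k + j) → Q.card ≤ j := by
  classical
  -- the case of order exactly `k + 1 + j`, by universal vertices
  have key : ∀ (s : Finset V), KTreeOn G k s → ∀ j, s.card = k + 1 + j → ∀ Q ⊆ s,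
      G.IsClique (Q : Set V) → (∀ q ∈ Q, d G s q + 1 ≤ k + j) → Q.card ≤ j := by
    intro s h j hj Q hQ hc hd
    have h1 := U_card h
    have h2 : (Q ∪ U G s).card ≤ k + 1 :=
      clique_le h _ (union_subset hQ U_subset) (isClique_union_U hQ hc)
    have h3 : Disjoint Q (U G s) := by
      rw [Finset.disjoint_left]
      intro q hq hqU
      have h4 := hd q hq
      have h5 : s.erase q ⊆ s.filter (G.Adj q) := by
        intro w hw
        rw [mem_erase] at hw
        rw [mem_filter]
        exact ⟨hw.2, (mem_U.1 hqU).2 w hw.2 hw.1⟩
      have h6 := card_le_card h5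
      rw [card_erase_of_mem (hQ hq)] at h6
      unfold d at h4
      omega
    rw [card_union_of_disjoint h3] at h2
    omega
  induction h with
  | base s h =>
    intro j hj Q hQ hc hd
    rw [h.card_eq] at hj
    have hj0 : j = 0 := by omega
    subst hj0
    exact key s (KTreeOn.base s h) 0 (by rw [h.card_eq]) Q hQ hc hd
  | step s K v hs hv hKs hK hN ih =>
    intro j hj Q hQ hc hd
    have hcard : (insert v s).card = s.card + 1 := card_insert_of_notMem hv
    rcases Nat.lt_or_ge s.card (k + 1 + j) with hlt | hge
    · exact key (insert v s) (KTreeOn.step s K v hs hv hKs hK hN) j (by omega) Q hQ hc hd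
    · by_cases hvQ : v ∈ Q
      · have hK' : ∀ w ∈ Q.erase v, w ∈ s ∧ G.Adj w v := by
          intro w hw
          rw [mem_erase] at hw
          have hws : w ∈ s := by
            have := hQ hw.2
            rw [mem_insert] at this
            exact this.resolve_left hw.1
          exact ⟨hws, hc (by exact_mod_cast hw.2) (by exact_mod_cast hvQ) hw.1⟩
        rcases j with _ | j
        · exfalso
          have h1 := hd v hvQ
          have h2 := d_ge (KTreeOn.step s K v hs hv hKs hK hN) v (mem_insert_self _ _)
          omega
        · have h1 := ih j (by omega) (Q.erase v) (fun w hw => (hK' w hw).1)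
            (hc.subset (by exact_mod_cast erase_subset v Q)) (by
              intro q hq
              have h3 := hd q (mem_of_mem_erase hq)
              rw [d_succ hv (hK' q hq).2] at h3
              omega)
          rw [card_erase_of_mem hvQ] at h1
          omega
      · refine ih j hge Q ?_ hc ?_
        · intro w hw
          have := hQ hw
          rw [mem_insert] at this
          rcases this with rfl | h
          · exact absurd hw hvQ
          · exact h
        · intro q hq
          have h3 := hd q hq
          have h4 := d_mono (G := G) (s := s) v q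
          omega

/-- `k`-trees (being chordal) satisfy: if all cliques inside `T` have at most `c` elements then
`T` can be properly coloured with the colours `0, …, c-1`. -/
lemma colouring {s : Finset V} (h : KTreeOn G k s) (c : ℕ) :
    ∀ T ⊆ s, (∀ Q ⊆ T, G.IsClique (Q : Set V) → Q.card ≤ c) →
      ∃ f : V → ℕ, (∀ v ∈ T, f v < c) ∧ ∀ v ∈ T, ∀ w ∈ T, G.Adj v w → f v ≠ f w := by
  classical
  induction h with
  | base s h =>
    intro T hT hc
    have hTc : T.card ≤ c := hc T (Subset.refl _) (h.isClique.subset (by exact_mod_cast hT))
    obtain ⟨e⟩ : Nonempty (T ≃ Fin T.card) := ⟨T.equivFin⟩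
    refine ⟨fun v => if hv : v ∈ T then (e ⟨v, hv⟩ : ℕ) else 0, ?_, ?_⟩
    · intro v hv
      simp only [hv, dif_pos]
      exact lt_of_lt_of_le (e ⟨v, hv⟩).2 hTc
    · intro v hv w hw hvw heq
      simp only [hv, hw, dif_pos] at heq
      have := e.injective (Fin.ext heq)
      simp only [Subtype.mk.injEq] at this
      exact G.ne_of_adj hvw this
  | step s K v hs hv hKs hK hN ih =>
    intro T hT hc
    by_cases hvT : v ∈ T
    · have hT' : T.erase v ⊆ s := by
        intro w hw
        rw [mem_erase] at hw
        have := hT hw.2
        rw [mem_insert] at this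
        exact this.resolve_left hw.1
      obtain ⟨f, hf1, hf2⟩ := ih (T.erase v) hT'
        (fun Q hQ => hc Q (hQ.trans (erase_subset v T)))
      -- neighbours of `v` in `T`
      set N := (T.erase v).filter (G.Adj v) with hNdef
      have hNK : N ⊆ K := by
        intro w hw
        rw [hNdef, mem_filter] at hw
        exact (hN w (hT' hw.1)).1 hw.2
      have hNc : N.card + 1 ≤ c := by
        have hvN : v ∉ N := by simp [hNdef]
        rw [← card_insert_of_notMem hvN]
        apply hc
        · intro w hw
          rw [mem_insert] at hw
          rcases hw with rfl | hw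
          · exact hvT
          · rw [hNdef, mem_filter] at hw
            exact mem_of_mem_erase hw.1
        · intro a ha b hb hab
          simp only [coe_insert, Set.mem_insert_iff, mem_coe] at ha hb
          rcases ha with rfl | ha
          · rcases hb with rfl | hb
            · exact absurd rfl hab
            · rw [hNdef, mem_filter] at hb
              exact hb.2
          · rcases hb with rfl | hb
            · rw [hNdef, mem_filter] at ha
              exact ha.2.symm
            · exact hK.isClique (by exact_mod_cast hNK ha) (by exact_mod_cast hNK hb) hab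
      obtain ⟨x, hx1, hx2⟩ : ∃ x ∈ range c, x ∉ N.image f := by
        apply exists_mem_notMem_of_card_lt_card
        rw [card_range]
        exact lt_of_le_of_lt card_image_le (by omega)
      refine ⟨fun w => if w = v then x else f w, ?_, ?_⟩
      · intro w hw
        by_cases hwv : w = v
        · simpa [hwv] using hx1
        · simp only [hwv, if_false]
          exact hf1 w (mem_erase.2 ⟨hwv, hw⟩)
      · intro a ha b hb hab
        by_cases hav : a = v
        · by_cases hbv : b = v
          · subst hav; subst hbv
            exact absurd hab (G.irrefl)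
          · simp only [hav, hbv, if_true, if_false]
            intro hxb
            apply hx2
            rw [mem_image]
            refine ⟨b, ?_, hxb.symm⟩
            rw [hNdef, mem_filter, mem_erase]
            exact ⟨⟨hbv, hb⟩, hav ▸ hab⟩
        · by_cases hbv : b = v
          · simp only [hav, hbv, if_true, if_false]
            intro hxa
            apply hx2
            rw [mem_image]
            refine ⟨a, ?_, hxa⟩
            rw [hNdef, mem_filter, mem_erase]
            exact ⟨⟨hav, ha⟩, (hbv ▸ hab).symm⟩
          · simp only [hav, hbv, if_false]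
            exact hf2 a (mem_erase.2 ⟨hav, ha⟩) b (mem_erase.2 ⟨hbv, hb⟩) hab
    · apply ih T _ hc
      intro w hw
      have := hT hw
      rw [mem_insert] at this
      rcases this with rfl | h
      · exact absurd hw hvT
      · exact h

end general

lemma upper {n k t : ℕ} (G : SimpleGraph (Fin n)) (hn : k + t + 2 ≤ n) (hG : IsKTree k G) :
    (G.induce (degSet G (k + t))).Colorable (t + 1) := by
  classical
  unfold IsKTree at hG
  obtain ⟨f, hf1, hf2⟩ := colouring hG (t + 1) (univ.filter (fun v => v ∈ degSet G (k + t)))
    (filter_subset _ _) (by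
      intro Q hQ hc
      refine low_clique hG (t + 1) (by rw [card_univ, Fintype.card_fin]; omega) Q (subset_univ _)
        hc ?_
      intro q hq
      have h1 := hQ hq
      rw [mem_filter] at h1
      have h2 : G.degree q = k + t := by
        have := h1.2
        unfold degSet at this
        simp only [Set.mem_ofPred_eq] at this
        convert this
      have h3 : d G univ q = G.degree q := by
        unfold d
        rw [← SimpleGraph.card_neighborFinset_eq_degree]
        congr 1
        ext w
        simp
      omega)
  refine ⟨SimpleGraph.Coloring.mk (fun v => (⟨f v.1, hf1 v.1 (by simp)⟩ : Fin (t + 1))) ?_⟩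
  intro v w hvw heq
  have h1 : G.Adj v.1 w.1 := hvw
  refine hf2 v.1 (by simp) w.1 (by simp) h1 ?_
  exact congrArg Fin.val heq

/-- The extremal example: `K_{t+2}` on `0, …, t+1` and `t + 1` further vertices `t + 2 + j`
(`j ≤ t`), the `j`-th one joined to all of the base but `j`. -/
def ex (t : ℕ) : SimpleGraph (Fin (2 * t + 3)) where
  Adj a b := a ≠ b ∧ (a.1 < t + 2 ∨ b.1 < t + 2) ∧ a.1 + t + 2 ≠ b.1 ∧ b.1 + t + 2 ≠ a.1
  symm := by
    constructor
    intro a b h
    exact ⟨h.1.symm, h.2.1.symm, h.2.2.2, h.2.2.1⟩
  loopless := by
    constructor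
    intro a h
    exact h.1 rfl

lemma ex_isKTree (t : ℕ) : IsKTree (t + 1) (ex t) := by
  classical
  have key : ∀ m, m ≤ t + 1 →
      KTreeOn (ex t) (t + 1) (univ.filter (fun i : Fin (2 * t + 3) => i.1 < t + 2 + m)) := by
    intro m
    induction m with
    | zero =>
      intro _
      apply KTreeOn.base
      constructor
      · intro a ha b hb hab
        simp only [coe_filter, mem_univ, true_and, Set.mem_ofPred_eq] at ha hb
        refine ⟨hab, Or.inl (by omega), by omega, by omega⟩
      · have : (univ.filter (fun i : Fin (2 * t + 3) => i.1 < t + 2 + 0)) =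
            univ.map (Fin.castLEEmb (show t + 2 ≤ 2 * t + 3 by omega)) := by
          ext i
          simp only [mem_filter, mem_univ, true_and, mem_map, Fin.castLEEmb_apply]
          constructor
          · intro h
            exact ⟨⟨i.1, by omega⟩, Fin.ext rfl⟩
          · rintro ⟨a, rfl⟩
            simp only [Fin.val_castLE]
            omega
        rw [this, card_map, card_univ, Fintype.card_fin]
    | succ m ih =>
      intro hm
      have h1 := ih (by omega)
      have hlt : t + 2 + m < 2 * t + 3 := by omega
      have hset : (univ.filter (fun i : Fin (2 * t + 3) => i.1 < t + 2 + (m + 1))) =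
          insert (⟨t + 2 + m, hlt⟩ : Fin (2 * t + 3))
            (univ.filter (fun i : Fin (2 * t + 3) => i.1 < t + 2 + m)) := by
        ext i
        simp only [mem_filter, mem_univ, true_and, mem_insert, Fin.ext_iff]
        omega
      rw [hset]
      refine KTreeOn.step _ (univ.filter (fun i : Fin (2 * t + 3) => i.1 < t + 2 ∧ i.1 ≠ m)) _ h1
        ?_ ?_ ?_ ?_
      · simp
      · intro i hi
        simp only [mem_filter, mem_univ, true_and] at hi ⊢
        omega
      · constructor
        · intro a ha b hb hab
          simp only [coe_filter, mem_univ, true_and, Set.mem_ofPred_eq] at ha hb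
          refine ⟨hab, Or.inl (by omega), by omega, by omega⟩
        · have h2 : (univ.filter (fun i : Fin (2 * t + 3) => i.1 < t + 2 ∧ i.1 ≠ m)) =
              (univ.map (Fin.castLEEmb (show t + 2 ≤ 2 * t + 3 by omega))).erase
                ⟨m, by omega⟩ := by
            ext i
            simp only [mem_filter, mem_univ, true_and, mem_erase, mem_map, Fin.castLEEmb_apply,
              ne_eq, Fin.ext_iff]
            constructor
            · intro h
              exact ⟨h.2, ⟨⟨i.1, by omega⟩, rfl⟩⟩
            · rintro ⟨h, ⟨a, ha⟩⟩
              simp only [Fin.val_castLE] at ha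
              omega
          rw [h2, card_erase_of_mem, card_map, card_univ, Fintype.card_fin]
          · rfl
          · simp only [mem_map, mem_univ, true_and, Fin.castLEEmb_apply, Fin.ext_iff]
            exact ⟨⟨m, by omega⟩, rfl⟩
      · intro w hw
        simp only [mem_filter, mem_univ, true_and] at hw ⊢
        unfold ex
        simp only [ne_eq, Fin.ext_iff]
        omega
  have h := key (t + 1) le_rfl
  unfold IsKTree
  convert h using 1
  ext i
  simp only [mem_filter, mem_univ, true_and, true_iff]
  omega

lemma ex_degree (t : ℕ) (i : Fin (2 * t + 3)) (hi : i.1 < t + 1) :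
    i ∈ degSet (ex t) (t + 1 + t) := by
  classical
  unfold degSet
  simp only [Set.mem_ofPred_eq]
  rw [← SimpleGraph.card_neighborFinset_eq_degree]
  have : (ex t).neighborFinset i = (univ.erase i).erase ⟨i.1 + t + 2, by omega⟩ := by
    ext w
    simp only [SimpleGraph.mem_neighborFinset, mem_erase, mem_univ, and_true, ne_eq, Fin.ext_iff]
    unfold ex
    simp only [ne_eq, Fin.ext_iff]
    omega
  rw [this, card_erase_of_mem, card_erase_of_mem (mem_univ _), card_univ, Fintype.card_fin]
  · omega
  · simp only [mem_erase, mem_univ, and_true, ne_eq, Fin.ext_iff]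
    omega

lemma lower (t : ℕ) :
    ((t + 1 : ℕ) : ℕ∞) ≤ ((ex t).induce (degSet (ex t) (t + 1 + t))).chromaticNumber := by
  classical
  let F : Fin (t + 1) → (degSet (ex t) (t + 1 + t) : Set (Fin (2 * t + 3))) :=
    fun i => ⟨⟨i.1, by omega⟩, ex_degree t _ i.2⟩
  have hF : Function.Injective F := by
    intro a b hab
    have := congrArg (fun x => x.1.1) hab
    exact Fin.ext this
  have hc : ((ex t).induce (degSet (ex t) (t + 1 + t))).IsClique
      ((univ.image F : Finset _) : Set _) := by
    intro a ha b hb hab
    simp only [coe_image, coe_univ, Set.image_univ, Set.mem_range] at ha hb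
    obtain ⟨i, rfl⟩ := ha
    obtain ⟨j, rfl⟩ := hb
    refine ⟨fun h => hab (Subtype.ext h), Or.inl ?_, ?_, ?_⟩
    · show i.1 < t + 2
      omega
    · show i.1 + t + 2 ≠ j.1
      omega
    · show j.1 + t + 2 ≠ i.1
      omega
  have h := hc.card_le_chromaticNumber
  rw [card_image_of_injective _ hF, card_univ, Fintype.card_fin] at h
  exact h

/-- **Main theorem.** `g t = t + 1` for every `t`; in particular the known upper bound
`(t² + t + 2) / 2` is not best possible for every `t` (it is strictly larger than `g t` exactly
for `t ≥ 2`). -/
theorem result :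
    (∀ t : ℕ, g t = ((t + 1 : ℕ) : ℕ∞)) ∧
      (∀ t : ℕ, 2 ≤ t → g t < (((t ^ 2 + t + 2) / 2 : ℕ) : ℕ∞)) := by
  have main : ∀ t : ℕ, g t = ((t + 1 : ℕ) : ℕ∞) := by
    intro t
    apply le_antisymm
    · apply sSup_le
      rintro c ⟨k, n, G, -, hn, hG, rfl⟩
      exact (upper G hn hG).chromaticNumber_le
    · refine (lower t).trans ?_
      apply le_sSup
      exact ⟨t + 1, 2 * t + 3, ex t, by omega, by omega, ex_isKTree t, rfl⟩
  refine ⟨main, ?_⟩
  intro t ht
  rw [main t]
  have h1 : t + 1 < (t ^ 2 + t + 2) / 2 := by
    have : 2 * (t + 2) ≤ t ^ 2 + t + 2 := by nlinarith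
    omega
  exact_mod_cast h1

end Pool.Agent.Results.MP_26d357_co.KTreeDegreeColouring
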